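import Mathlib

/-!
# The best constant in the Hardy-Littlewood inequality with weight `x`

For `f` on `(0, ∞)` with `x f²` and `x f''²` integrable we determine the least constant `K` in
`(∫ x f'²)² ≤ K (∫ x f²) (∫ x f''²)`.  The answer is `K = 1 / (2 k² - 1)²`, where `k ∈ (0, 1)` is
the unique modulus with `2 E(k) = K(k)` (complete elliptic integrals of the first and second kind).

Idea: put `c = 4 k² - 2`.  The function `g₀(x) = Re ∫_0^{π/2} e^{s(t) x} dt / Δ(t)`, with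
`Δ = √(1 - k² sin² t)` and `s = -(Δ + i k sin t)`, solves `(x g'')'' + c (x g')' + x g = 0`, decays
exponentially and has `g''(0) = 2 E - K = 0`.  Hence it is orthogonal to everything for the form
`Q(f) = ∫ x (f''² - c f'² + f²)`, so that `Q(f) = Q(f - t g₀)` for every `t`; choosing `t` with
`(f - t g₀)(0+) = 0` reduces the inequality `Q ≥ 0` to the case `f(0+) = 0`, where
`∫ x f'² = - ∫ x f f''` makes it trivial.
-/

open MeasureTheory Set Filter Topology Real

namespace Pool.Agent.Results.MP_9d0787_an.ExactConstant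

/-- `Δ(t) = √(1 - k² sin² t)` -/
noncomputable def Dl (k t : ℝ) : ℝ := √(1 - k ^ 2 * sin t ^ 2)

noncomputable def sC (k t : ℝ) : ℂ := -((Dl k t : ℝ) + (k * sin t : ℝ) * Complex.I)

lemma one_sub_pos (k t : ℝ) : 1 - k ^ 2 ≤ 1 - k ^ 2 * sin t ^ 2 := by
  have h := sin_sq_le_one t
  nlinarith [sq_nonneg k, sq_nonneg (sin t)]

lemma Dl_ge (k t : ℝ) : √(1 - k ^ 2) ≤ Dl k t :=
  Real.sqrt_le_sqrt (one_sub_pos k t)

lemma Dl_pos {k : ℝ} (hk : k ^ 2 < 1) (t : ℝ) : 0 < Dl k t :=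
  lt_of_lt_of_le (Real.sqrt_pos.2 (by linarith)) (Dl_ge k t)

lemma Dl_sq {k : ℝ} (hk : k ^ 2 < 1) (t : ℝ) : Dl k t ^ 2 = 1 - k ^ 2 * sin t ^ 2 := by
  unfold Dl
  rw [Real.sq_sqrt]
  linarith [one_sub_pos k t]

lemma Dl_cont (k : ℝ) : Continuous (Dl k) := by
  unfold Dl; fun_prop

lemma Dl_hasDeriv {k : ℝ} (hk : k ^ 2 < 1) (t : ℝ) :
    HasDerivAt (Dl k) (-(k ^ 2 * sin t * cos t) / Dl k t) t := by
  have h1 : HasDerivAt (fun t => 1 - k ^ 2 * sin t ^ 2) (-(k ^ 2 * (2 * sin t * cos t))) t := by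
    have := ((Real.hasDerivAt_sin t).fun_pow 2).const_mul (k ^ 2)
    have h2 := this.const_sub 1
    refine h2.congr_deriv ?_
    norm_num
  have hpos : (0:ℝ) < 1 - k ^ 2 * sin t ^ 2 := by linarith [one_sub_pos k t]
  have h2 := h1.sqrt hpos.ne'
  unfold Dl
  refine h2.congr_deriv ?_
  have : √(1 - k ^ 2 * sin t ^ 2) ≠ 0 := (Real.sqrt_pos.2 hpos).ne'
  field_simp

lemma sC_cont (k : ℝ) : Continuous (sC k) := by
  have := Dl_cont k
  unfold sC; fun_prop

lemma sC_re (k t : ℝ) : (sC k t).re = - Dl k t := by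
  simp [sC]

lemma sC_im (k t : ℝ) : (sC k t).im = - (k * sin t) := by
  simp only [sC, Complex.neg_im, Complex.add_im, Complex.ofReal_im, Complex.mul_im,
    Complex.ofReal_re, Complex.I_re, Complex.I_im]
  ring

lemma sC_normSq {k : ℝ} (hk : k ^ 2 < 1) (t : ℝ) : Complex.normSq (sC k t) = 1 := by
  rw [Complex.normSq_apply, sC_re, sC_im]
  have := Dl_sq hk t
  nlinarith

lemma sC_norm {k : ℝ} (hk : k ^ 2 < 1) (t : ℝ) : ‖sC k t‖ = 1 := by
  rw [Complex.norm_def, sC_normSq hk, Real.sqrt_one]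

/-- integrand of `Z j` -/
noncomputable def Fint (k : ℝ) (j : ℕ) (x t : ℝ) : ℂ :=
  sC k t ^ j * Complex.exp (sC k t * x) / (Dl k t : ℝ)

noncomputable def Z (k : ℝ) (j : ℕ) (x : ℝ) : ℂ := ∫ t in (0:ℝ)..(π / 2), Fint k j x t

lemma Fint_cont {k : ℝ} (hk : k ^ 2 < 1) (j : ℕ) (x : ℝ) : Continuous (Fint k j x) := by
  have h1 := Dl_cont k
  have h2 := sC_cont k
  unfold Fint
  refine Continuous.div (by fun_prop) (by fun_prop) ?_
  intro t
  have := (Dl_pos hk t).ne'
  exact_mod_cast this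

lemma Fint_norm {k : ℝ} (hk : k ^ 2 < 1) (j : ℕ) (x t : ℝ) :
    ‖Fint k j x t‖ = Real.exp (-(Dl k t) * x) / Dl k t := by
  unfold Fint
  rw [norm_div, norm_mul, norm_pow, sC_norm hk, one_pow, one_mul, Complex.norm_exp,
    Complex.norm_real, Real.norm_of_nonneg (Dl_pos hk t).le]
  congr 2
  simp [sC_re]

lemma Z_hasDeriv {k : ℝ} (hk : k ^ 2 < 1) (j : ℕ) (x : ℝ) :
    HasDerivAt (Z k j) (Z k (j + 1) x) x := by
  unfold Z
  have hδ : 0 < √(1 - k ^ 2) := Real.sqrt_pos.2 (by linarith)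
  refine (intervalIntegral.hasDerivAt_integral_of_dominated_loc_of_deriv_le
    (F := fun x t => Fint k j x t) (F' := fun x t => Fint k (j + 1) x t) (x₀ := x)
    (s := Metric.ball x 1) (bound := fun _ => Real.exp (|x| + 1) / √(1 - k ^ 2))
    (Metric.ball_mem_nhds x one_pos) ?_ ?_ ?_ ?_ ?_ ?_).2
  · exact Eventually.of_forall fun y => ((Fint_cont hk j y).aestronglyMeasurable)
  · exact (Fint_cont hk j x).intervalIntegrable _ _
  · exact (Fint_cont hk (j + 1) x).aestronglyMeasurable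
  · refine Eventually.of_forall fun t _ y hy => ?_
    rw [Fint_norm hk]
    have hD1 := Dl_ge k t
    have hD0 := Dl_pos hk t
    have hDle : Dl k t ≤ 1 := by
      unfold Dl
      rw [Real.sqrt_le_one]
      nlinarith [sq_nonneg k, sq_nonneg (sin t), mul_nonneg (sq_nonneg k) (sq_nonneg (sin t))]
    have hy1 : |y| ≤ |x| + 1 := by
      have : |y - x| < 1 := by simpa [Real.dist_eq] using hy
      calc |y| = |(y - x) + x| := by ring_nf
        _ ≤ |y - x| + |x| := abs_add_le _ _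
        _ ≤ |x| + 1 := by linarith
    gcongr
    have : -(Dl k t) * y ≤ Dl k t * |y| := by
      nlinarith [neg_abs_le y, abs_nonneg y]
    have h2 : Dl k t * |y| ≤ 1 * (|x| + 1) := by
      gcongr
    linarith
  · exact intervalIntegrable_const
  · refine Eventually.of_forall fun t _ y _ => ?_
    unfold Fint
    have h1 : HasDerivAt (fun y : ℝ => Complex.exp (sC k t * y)) (Complex.exp (sC k t * y) * (sC k t)) y := by
      have h0 : HasDerivAt (fun y : ℝ => sC k t * (y : ℂ)) (sC k t * 1) y :=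
        (Complex.ofRealCLM.hasDerivAt (x := y)).const_mul (sC k t)
      simpa using h0.cexp
    have h2 := (h1.const_mul (sC k t ^ j)).div_const ((Dl k t : ℝ) : ℂ)
    refine h2.congr_deriv ?_
    ring

noncomputable def g (k : ℝ) (j : ℕ) (x : ℝ) : ℝ := (Z k j x).re

lemma g_hasDeriv {k : ℝ} (hk : k ^ 2 < 1) (j : ℕ) (x : ℝ) :
    HasDerivAt (g k j) (g k (j + 1) x) x := by
  have h := Z_hasDeriv hk j x
  have h2 := (Complex.reCLM.hasFDerivAt (x := Z k j x)).comp_hasDerivAt x h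
  exact h2

lemma g_cont {k : ℝ} (hk : k ^ 2 < 1) (j : ℕ) : Continuous (g k j) :=
  continuous_iff_continuousAt.2 fun x => (g_hasDeriv hk j x).continuousAt

/-- exponential decay -/
lemma g_bound {k : ℝ} (hk : k ^ 2 < 1) (j : ℕ) {x : ℝ} (hx : 0 ≤ x) :
    |g k j x| ≤ (π / 2) / √(1 - k ^ 2) * Real.exp (-(√(1 - k ^ 2) * x)) := by
  have hδ : 0 < √(1 - k ^ 2) := Real.sqrt_pos.2 (by linarith)
  have h1 : |g k j x| ≤ ‖Z k j x‖ := Complex.abs_re_le_norm _
  have h2 : ‖Z k j x‖ ≤ (Real.exp (-(√(1 - k ^ 2) * x)) / √(1 - k ^ 2)) * |π / 2 - 0| := by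
    unfold Z
    refine intervalIntegral.norm_integral_le_of_norm_le_const fun t _ => ?_
    rw [Fint_norm hk]
    have hD1 := Dl_ge k t
    have hD0 := Dl_pos hk t
    gcongr
    nlinarith
  rw [sub_zero, abs_of_pos (by positivity)] at h2
  calc |g k j x| ≤ _ := h1
    _ ≤ _ := h2
    _ = _ := by ring

/-- The total derivative behind the differential equation. -/
lemma sC_hasDeriv {k : ℝ} (hk : k ^ 2 < 1) (t : ℝ) :
    HasDerivAt (sC k) (sC k t * (Complex.I * (k * cos t : ℝ) / (Dl k t : ℝ))) t := by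
  have h1 : HasDerivAt (fun t => ((Dl k t : ℝ) : ℂ)) ((-(k ^ 2 * sin t * cos t) / Dl k t : ℝ) : ℂ) t :=
    (Dl_hasDeriv hk t).ofReal_comp
  have h2 : HasDerivAt (fun t => ((k * sin t : ℝ) : ℂ)) ((k * cos t : ℝ) : ℂ) t :=
    ((Real.hasDerivAt_sin t).const_mul k).ofReal_comp
  have h3 := (h1.add (h2.mul_const Complex.I)).neg
  refine h3.congr_deriv ?_
  have hD : ((Dl k t : ℝ) : ℂ) ≠ 0 := by exact_mod_cast (Dl_pos hk t).ne'
  unfold sC
  push_cast
  field_simp
  ring_nf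
  rw [Complex.I_sq]
  ring

lemma P_identity {k : ℝ} (hk : k ^ 2 < 1) (t : ℝ) :
    sC k t ^ 4 + (4 * k ^ 2 - 2) * sC k t ^ 2 + 1 = 4 * k ^ 2 * (cos t : ℝ) ^ 2 * sC k t ^ 2 := by
  have hDR := Dl_sq hk t
  have hD : ((Dl k t : ℝ) : ℂ) ^ 2 = 1 - k ^ 2 * (sin t : ℝ) ^ 2 := by exact_mod_cast congrArg (fun r : ℝ => (r : ℂ)) hDR
  have hcR := Real.sin_sq_add_cos_sq t
  have hc : ((cos t : ℝ) : ℂ) ^ 2 = 1 - ((sin t : ℝ) : ℂ) ^ 2 := by
    have : cos t ^ 2 = 1 - sin t ^ 2 := by linarith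
    exact_mod_cast congrArg (fun r : ℝ => (r : ℂ)) this
  rw [hc]
  unfold sC
  push_cast
  generalize ((Dl k t : ℝ) : ℂ) = D at *
  have hD2 : D ^ 2 = 1 - (k : ℂ) ^ 2 * ((sin t : ℝ) : ℂ) ^ 2 := hD
  push_cast at *
  generalize Complex.sin (t : ℂ) = S at *
  have hD3 : D ^ 3 = D * (1 - (k : ℂ) ^ 2 * S ^ 2) := by rw [← hD2]; ring
  have hD4 : D ^ 4 = (1 - (k : ℂ) ^ 2 * S ^ 2) ^ 2 := by rw [← hD2]; ring
  have hI3 : Complex.I ^ 3 = - Complex.I := by rw [pow_succ, Complex.I_sq]; ring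
  have hI4 : Complex.I ^ 4 = 1 := by rw [show (4:ℕ) = 2 * 2 from rfl, pow_mul, Complex.I_sq]; ring
  ring_nf
  rw [hI4, hI3, Complex.I_sq, hD4, hD3, hD2]
  ring

lemma half_P'_identity {k : ℝ} (hk : k ^ 2 < 1) (t : ℝ) :
    2 * sC k t ^ 3 + (4 * k ^ 2 - 2) * sC k t =
      sC k t * (4 * k ^ 2 * (cos t : ℝ) ^ 2 + 4 * Complex.I * k * (sin t : ℝ) * (Dl k t : ℝ)) := by
  have hDR := Dl_sq hk t
  have hD : ((Dl k t : ℝ) : ℂ) ^ 2 = 1 - k ^ 2 * (sin t : ℝ) ^ 2 := by exact_mod_cast congrArg (fun r : ℝ => (r : ℂ)) hDR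
  have hcR := Real.sin_sq_add_cos_sq t
  have hc : ((cos t : ℝ) : ℂ) ^ 2 = 1 - ((sin t : ℝ) : ℂ) ^ 2 := by
    have : cos t ^ 2 = 1 - sin t ^ 2 := by linarith
    exact_mod_cast congrArg (fun r : ℝ => (r : ℂ)) this
  rw [hc]
  have h : 2 * sC k t ^ 2 + (4 * k ^ 2 - 2) =
      4 * k ^ 2 * (1 - ((sin t : ℝ) : ℂ) ^ 2) + 4 * Complex.I * k * (sin t : ℝ) * (Dl k t : ℝ) := by
    unfold sC
    push_cast at *
    generalize ((Dl k t : ℝ) : ℂ) = D at *
    have hD2 : D ^ 2 = 1 - (k : ℂ) ^ 2 * Complex.sin (t : ℂ) ^ 2 := hD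
    generalize Complex.sin (t : ℂ) = S at *
    ring_nf
    rw [Complex.I_sq, hD2]
    ring
  rw [← h]
  ring

lemma total_deriv {k : ℝ} (hk : k ^ 2 < 1) (x t : ℝ) :
    HasDerivAt (fun t => -4 * Complex.I * k * (Complex.exp (sC k t * x) * sC k t * (cos t : ℝ)))
      (x * Fint k 4 x t + 2 * Fint k 3 x t + (4 * k ^ 2 - 2) * x * Fint k 2 x t
        + (4 * k ^ 2 - 2) * Fint k 1 x t + x * Fint k 0 x t) t := by
  have hD : ((Dl k t : ℝ) : ℂ) ≠ 0 := by exact_mod_cast (Dl_pos hk t).ne'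
  have hs := sC_hasDeriv hk t
  have h1 : HasDerivAt (fun t => Complex.exp (sC k t * x))
      (Complex.exp (sC k t * x) * (sC k t * (Complex.I * (k * cos t : ℝ) / (Dl k t : ℝ)) * x)) t :=
    (hs.mul_const (x : ℂ)).cexp
  have h2 : HasDerivAt (fun t => ((cos t : ℝ) : ℂ)) ((-sin t : ℝ) : ℂ) t :=
    (Real.hasDerivAt_cos t).ofReal_comp
  have h3 := ((h1.fun_mul hs).fun_mul h2).const_mul (-4 * Complex.I * k)
  refine h3.congr_deriv ?_
  have hP := P_identity hk t
  have hP' := half_P'_identity hk t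
  have e1 : (x * Fint k 4 x t + 2 * Fint k 3 x t + (4 * k ^ 2 - 2) * x * Fint k 2 x t
        + (4 * k ^ 2 - 2) * Fint k 1 x t + x * Fint k 0 x t)
      = Complex.exp (sC k t * x) / (Dl k t : ℝ) *
        (x * (sC k t ^ 4 + (4 * k ^ 2 - 2) * sC k t ^ 2 + 1) +
          (2 * sC k t ^ 3 + (4 * k ^ 2 - 2) * sC k t)) := by
    unfold Fint
    ring
  rw [e1, hP, hP']
  generalize Complex.exp (sC k t * x) = E
  generalize sC k t = s
  push_cast
  generalize ((Dl k t : ℝ) : ℂ) = D at *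
  generalize Complex.sin (t : ℂ) = S at *
  generalize Complex.cos (t : ℂ) = C at *
  field_simp
  ring_nf
  rw [Complex.I_sq]
  ring

lemma Z_ode {k : ℝ} (hk : k ^ 2 < 1) (x : ℝ) :
    x * Z k 4 x + 2 * Z k 3 x + (4 * k ^ 2 - 2) * x * Z k 2 x
        + (4 * k ^ 2 - 2) * Z k 1 x + x * Z k 0 x = -4 * Complex.I * k * Complex.exp (-x) := by
  have hi : ∀ j, IntervalIntegrable (Fint k j x) volume 0 (π / 2) := fun j =>
    (Fint_cont hk j x).intervalIntegrable _ _
  have hftc := intervalIntegral.integral_eq_sub_of_hasDerivAt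
    (f := fun t => -4 * Complex.I * k * (Complex.exp (sC k t * x) * sC k t * (cos t : ℝ)))
    (a := 0) (b := π / 2) (fun t _ => total_deriv hk x t)
    (((((hi 4).const_mul _).add ((hi 3).const_mul _)).add ((hi 2).const_mul _)).add
      ((hi 1).const_mul _) |>.add ((hi 0).const_mul _))
  have hsplit : (∫ t in (0:ℝ)..(π / 2), (x * Fint k 4 x t + 2 * Fint k 3 x t
      + (4 * k ^ 2 - 2) * x * Fint k 2 x t
        + (4 * k ^ 2 - 2) * Fint k 1 x t + x * Fint k 0 x t)) =
      x * Z k 4 x + 2 * Z k 3 x + (4 * k ^ 2 - 2) * x * Z k 2 x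
        + (4 * k ^ 2 - 2) * Z k 1 x + x * Z k 0 x := by
    unfold Z
    rw [intervalIntegral.integral_add, intervalIntegral.integral_add, intervalIntegral.integral_add,
      intervalIntegral.integral_add]
    · simp only [intervalIntegral.integral_const_mul]
    · exact (hi 4).const_mul _
    · exact (hi 3).const_mul _
    · exact ((hi 4).const_mul _).add ((hi 3).const_mul _)
    · exact (hi 2).const_mul _
    · exact (((hi 4).const_mul _).add ((hi 3).const_mul _)).add ((hi 2).const_mul _)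
    · exact (hi 1).const_mul _
    · exact ((((hi 4).const_mul _).add ((hi 3).const_mul _)).add ((hi 2).const_mul _)).add
        ((hi 1).const_mul _)
    · exact (hi 0).const_mul _
  rw [← hsplit, hftc]
  have h0 : sC k 0 = -1 := by
    simp [sC, Dl]
  simp [h0]

lemma g_ode {k : ℝ} (hk : k ^ 2 < 1) (x : ℝ) :
    x * g k 4 x + 2 * g k 3 x + (4 * k ^ 2 - 2) * x * g k 2 x
        + (4 * k ^ 2 - 2) * g k 1 x + x * g k 0 x = 0 := by
  have h := congrArg Complex.re (Z_ode hk x)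
  have hr : (-4 * Complex.I * k * Complex.exp (-x)).re = 0 := by
    have : (-4 * Complex.I * k * Complex.exp (-x)) = ((-4 * k * Real.exp (-x) : ℝ) : ℂ) * Complex.I := by
      push_cast; ring
    rw [this, Complex.re_ofReal_mul, Complex.I_re, mul_zero]
  rw [hr] at h
  rw [← h]
  have e : (x * Z k 4 x + 2 * Z k 3 x + (4 * k ^ 2 - 2) * x * Z k 2 x
        + (4 * k ^ 2 - 2) * Z k 1 x + x * Z k 0 x : ℂ) =
      ((x : ℝ) : ℂ) * Z k 4 x + ((2 : ℝ) : ℂ) * Z k 3 x + (((4 * k ^ 2 - 2) * x : ℝ) : ℂ) * Z k 2 x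
        + ((4 * k ^ 2 - 2 : ℝ) : ℂ) * Z k 1 x + ((x : ℝ) : ℂ) * Z k 0 x := by
    push_cast; ring
  rw [e]
  simp only [Complex.add_re, Complex.re_ofReal_mul, g]

/-- complete elliptic integrals -/
noncomputable def ellipticK (k : ℝ) : ℝ := ∫ t in (0:ℝ)..(π / 2), 1 / √(1 - k ^ 2 * sin t ^ 2)

noncomputable def ellipticE (k : ℝ) : ℝ := ∫ t in (0:ℝ)..(π / 2), √(1 - k ^ 2 * sin t ^ 2)

lemma g_two_zero {k : ℝ} (hk : k ^ 2 < 1) : g k 2 0 = 2 * ellipticE k - ellipticK k := by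
  have h1 : g k 2 0 = ∫ t in (0:ℝ)..(π / 2), (Fint k 2 0 t).re := by
    unfold g Z
    have := (Complex.reCLM.intervalIntegral_comp_comm
      ((Fint_cont hk 2 0).intervalIntegrable (μ := volume) 0 (π / 2)))
    simpa using this.symm
  rw [h1]
  unfold ellipticE ellipticK
  rw [← intervalIntegral.integral_const_mul, ← intervalIntegral.integral_sub]
  · refine intervalIntegral.integral_congr fun t _ => ?_
    have hD := (Dl_pos hk t).ne'
    have hD2 := Dl_sq hk t
    have e2 : (Fint k 2 0 t).re = ((sC k t) ^ 2).re / Dl k t := by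
      unfold Fint
      rw [Complex.div_ofReal_re]
      simp
    have e3 : ((sC k t) ^ 2).re = 1 - 2 * (k ^ 2 * sin t ^ 2) := by
      rw [pow_two, Complex.mul_re, sC_re, sC_im]
      nlinarith
    simp only [e2, e3]
    change _ = 2 * Dl k t - 1 / Dl k t
    field_simp
    nlinarith
  · have := (Dl_cont k)
    exact (Continuous.intervalIntegrable (by unfold Dl at this; fun_prop) _ _)
  · refine Continuous.intervalIntegrable ?_ _ _
    refine Continuous.div continuous_const (Dl_cont k) fun t => (Dl_pos hk t).ne'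

lemma g_zero_zero_pos {k : ℝ} (hk : k ^ 2 < 1) : 0 < g k 0 0 := by
  have h1 : g k 0 0 = ∫ t in (0:ℝ)..(π / 2), (Fint k 0 0 t).re := by
    unfold g Z
    have := (Complex.reCLM.intervalIntegral_comp_comm
      ((Fint_cont hk 0 0).intervalIntegrable (μ := volume) 0 (π / 2)))
    simpa using this.symm
  rw [h1]
  have e : ∀ t, (Fint k 0 0 t).re = 1 / Dl k t := by
    intro t
    unfold Fint
    simp
  simp only [e]
  refine intervalIntegral.intervalIntegral_pos_of_pos ?_ (fun t => ?_) (by positivity)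
  · refine Continuous.intervalIntegrable ?_ _ _
    exact Continuous.div continuous_const (Dl_cont k) fun t => (Dl_pos hk t).ne'
  · have := Dl_pos hk t
    positivity

lemma Dl_le_one (k t : ℝ) : Dl k t ≤ 1 := by
  unfold Dl
  rw [Real.sqrt_le_one]
  nlinarith [sq_nonneg k, sq_nonneg (sin t), mul_nonneg (sq_nonneg k) (sq_nonneg (sin t))]

noncomputable def Phi (k : ℝ) : ℝ := 2 * ellipticE k - ellipticK k

lemma Phi_eq {k : ℝ} (hk : k ^ 2 < 1) :
    Phi k = ∫ t in (0:ℝ)..(π / 2), (2 * Dl k t - 1 / Dl k t) := by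
  unfold Phi ellipticE ellipticK
  rw [← intervalIntegral.integral_const_mul, ← intervalIntegral.integral_sub]
  · rfl
  · exact ((Dl_cont k).const_mul 2).intervalIntegrable _ _
  · refine Continuous.intervalIntegrable ?_ _ _
    exact Continuous.div continuous_const (Dl_cont k) fun t => (Dl_pos hk t).ne'

lemma integrand_cont {k : ℝ} (hk : k ^ 2 < 1) : Continuous (fun t => 2 * Dl k t - 1 / Dl k t) :=
  ((Dl_cont k).const_mul 2).sub
    (Continuous.div continuous_const (Dl_cont k) fun t => (Dl_pos hk t).ne')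

lemma two_sub_inv_mono {a b : ℝ} (ha : 0 < a) (hab : a ≤ b) : 2 * a - 1 / a ≤ 2 * b - 1 / b := by
  have : 1 / b ≤ 1 / a := one_div_le_one_div_of_le ha hab
  linarith

lemma two_sub_inv_strict {a b : ℝ} (ha : 0 < a) (hab : a < b) : 2 * a - 1 / a < 2 * b - 1 / b := by
  have : 1 / b < 1 / a := one_div_lt_one_div_of_lt ha hab
  linarith

lemma Phi_strictAnti {k k' : ℝ} (h0 : 0 ≤ k) (hkk : k < k') (h1 : k' < 1) : Phi k' < Phi k := by
  have hk : k ^ 2 < 1 := by nlinarith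
  have hk' : k' ^ 2 < 1 := by nlinarith
  have hsq : k ^ 2 < k' ^ 2 := by nlinarith
  rw [Phi_eq hk, Phi_eq hk']
  refine intervalIntegral.integral_lt_integral_of_continuousOn_of_le_of_exists_lt (by positivity)
    (integrand_cont hk').continuousOn (integrand_cont hk).continuousOn ?_ ?_
  · intro t _
    refine two_sub_inv_mono (Dl_pos hk' t) ?_
    unfold Dl
    apply Real.sqrt_le_sqrt
    nlinarith [sq_nonneg (sin t)]
  · refine ⟨π / 2, ⟨by positivity, le_rfl⟩, ?_⟩
    refine two_sub_inv_strict (Dl_pos hk' _) ?_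
    unfold Dl
    rw [Real.sin_pi_div_two]
    apply Real.sqrt_lt_sqrt
    · nlinarith
    · nlinarith

lemma Phi_pos_of_sq_le_half {k : ℝ} (hk : k ^ 2 ≤ 1 / 2) : 0 < Phi k := by
  have hk1 : k ^ 2 < 1 := by linarith
  rw [Phi_eq hk1]
  have hz : (∫ t in (0:ℝ)..(π / 2), (0:ℝ)) = 0 := by simp
  refine lt_of_eq_of_lt hz.symm ?_
  refine intervalIntegral.integral_lt_integral_of_continuousOn_of_le_of_exists_lt (by positivity)
    continuousOn_const (integrand_cont hk1).continuousOn ?_ ?_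
  · intro t _
    have hD := Dl_pos hk1 t
    have hD2 := Dl_sq hk1 t
    rw [sub_nonneg, div_le_iff₀ hD]
    nlinarith [sin_sq_le_one t, sq_nonneg (sin t)]
  · refine ⟨0, ⟨le_rfl, by positivity⟩, ?_⟩
    simp [Dl]

lemma Phi_neg : Phi (√(1 - (1 / 20) ^ 2)) < 0 := by
  set k := √(1 - (1 / 20 : ℝ) ^ 2) with hkdef
  have hk2 : k ^ 2 = 1 - (1 / 20) ^ 2 := by
    rw [hkdef, Real.sq_sqrt]; norm_num
  have hk : k ^ 2 < 1 := by rw [hk2]; norm_num
  have hE : ellipticE k ≤ π / 2 := by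
    unfold ellipticE
    calc ∫ t in (0:ℝ)..(π / 2), √(1 - k ^ 2 * sin t ^ 2)
        ≤ ∫ t in (0:ℝ)..(π / 2), (1:ℝ) := by
          refine intervalIntegral.integral_mono_on (by positivity)
            ((Dl_cont k).intervalIntegrable _ _) intervalIntegrable_const ?_
          intro t _
          exact Dl_le_one k t
      _ = π / 2 := by simp
  have hcont : ContinuousOn (fun t : ℝ => 1 / (1 / 20 + π / 2 - t)) (Icc 0 (π / 2)) := by
    refine ContinuousOn.div continuousOn_const (by fun_prop) ?_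
    intro t ht
    have := ht.2
    intro h
    linarith
  have hK1 : (∫ t in (0:ℝ)..(π / 2), 1 / (1 / 20 + π / 2 - t)) ≤ ellipticK k := by
    unfold ellipticK
    refine intervalIntegral.integral_mono_on (by positivity) ?_ ?_ ?_
    · exact hcont.intervalIntegrable_of_Icc (by positivity)
    · refine Continuous.intervalIntegrable ?_ _ _
      exact Continuous.div continuous_const (Dl_cont k) fun t => (Dl_pos hk t).ne'
    · intro t ht
      have hD := Dl_pos hk t
      have h1 : Dl k t ≤ 1 / 20 + π / 2 - t := by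
        unfold Dl
        apply Real.sqrt_le_iff.2
        constructor
        · linarith [ht.2]
        · have hc : cos t ≤ π / 2 - t := by
            rw [← Real.sin_pi_div_two_sub]
            exact Real.sin_le (by linarith [ht.2])
          have hc0 : 0 ≤ cos t := Real.cos_nonneg_of_mem_Icc ⟨by linarith [ht.1, Real.pi_pos], ht.2⟩
          have hcs := Real.sin_sq_add_cos_sq t
          rw [hk2]
          have hs := sin_sq_le_one t
          have h2 : 1 - (1 - (1 / 20) ^ 2) * sin t ^ 2 ≤ (1 / 20 + cos t) ^ 2 := by nlinarith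
          calc 1 - (1 - (1 / 20) ^ 2) * sin t ^ 2 ≤ (1 / 20 + cos t) ^ 2 := h2
            _ ≤ (1 / 20 + π / 2 - t) ^ 2 := by
              apply pow_le_pow_left₀ (by positivity)
              linarith
      exact one_div_le_one_div_of_le hD h1
  have hK2 : (∫ t in (0:ℝ)..(π / 2), 1 / (1 / 20 + π / 2 - t)) = log (1 + 10 * π) := by
    have hder : ∀ t ∈ uIcc (0:ℝ) (π / 2), HasDerivAt (fun t => -log (1 / 20 + π / 2 - t))
        (1 / (1 / 20 + π / 2 - t)) t := by
      intro t ht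
      rw [uIcc_of_le (by positivity)] at ht
      have hne : (1 / 20 + π / 2 - t) ≠ 0 := by
        have := ht.2
        intro h
        linarith
      have h1 : HasDerivAt (fun t => 1 / 20 + π / 2 - t) (-1) t := by
        simpa using (hasDerivAt_id t).const_sub (1 / 20 + π / 2)
      have h2 := (h1.log hne).neg
      refine h2.congr_deriv ?_
      ring
    rw [intervalIntegral.integral_eq_sub_of_hasDerivAt hder
      (hcont.intervalIntegrable_of_Icc (by positivity))]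
    have e1 : (1 / 20 + π / 2 - π / 2 : ℝ) = 1 / 20 := by ring
    have e2 : (1 / 20 + π / 2 - 0 : ℝ) = (1 / 20) * (1 + 10 * π) := by ring
    rw [e1, e2, Real.log_mul (by norm_num) (by positivity)]
    ring
  have hlog : π < log (1 + 10 * π) := by
    have h32 : log ((2:ℝ) ^ 5) ≤ log (1 + 10 * π) := by
      apply Real.log_le_log (by norm_num)
      nlinarith [Real.pi_gt_d2]
    rw [Real.log_pow] at h32
    have := Real.log_two_gt_d9
    have := Real.pi_lt_d2
    norm_num at *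
    linarith
  unfold Phi
  linarith

lemma Phi_continuousOn {k₁ : ℝ} (h0 : 0 ≤ k₁) (h1 : k₁ < 1) : ContinuousOn Phi (Icc 0 k₁) := by
  have hk1 : k₁ ^ 2 < 1 := by nlinarith
  set δ := √(1 - k₁ ^ 2) with hδ
  have hδp : 0 < δ := Real.sqrt_pos.2 (by linarith)
  have hc : Continuous (fun k : ℝ => ∫ t in (0:ℝ)..(π / 2),
      (2 * max (Dl k t) δ - 1 / max (Dl k t) δ)) := by
    refine intervalIntegral.continuous_parametric_intervalIntegral_of_continuous' ?_ _ _
    have hm : Continuous (fun p : ℝ × ℝ => max (Dl p.1 p.2) δ) := by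
      unfold Dl; fun_prop
    have hne : ∀ p : ℝ × ℝ, max (Dl p.1 p.2) δ ≠ 0 := fun p =>
      (lt_of_lt_of_le hδp (le_max_right _ _)).ne'
    exact (hm.const_mul 2).sub (continuous_const.div hm hne)
  refine hc.continuousOn.congr ?_
  intro k hk
  have hk2 : k ^ 2 ≤ k₁ ^ 2 := by nlinarith [hk.1, hk.2]
  rw [Phi_eq (by linarith)]
  refine intervalIntegral.integral_congr fun t _ => ?_
  have : δ ≤ Dl k t := by
    refine le_trans ?_ (Dl_ge k t)
    rw [hδ]
    exact Real.sqrt_le_sqrt (by linarith)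
  simp only [max_eq_left this]

lemma exists_root : ∃ k : ℝ, 0 < k ∧ k < 1 ∧ Phi k = 0 := by
  set k₁ := √(1 - (1 / 20 : ℝ) ^ 2) with hkdef
  have h0 : 0 ≤ k₁ := Real.sqrt_nonneg _
  have h1 : k₁ < 1 := by
    rw [hkdef, Real.sqrt_lt' one_pos]; norm_num
  have hP0 : 0 < Phi 0 := Phi_pos_of_sq_le_half (by norm_num)
  have hP1 : Phi k₁ < 0 := Phi_neg
  have := intermediate_value_Icc' h0 (Phi_continuousOn h0 h1)
  obtain ⟨k, hk, hk0⟩ := this ⟨hP1.le, hP0.le⟩
  refine ⟨k, ?_, lt_of_le_of_lt hk.2 h1, hk0⟩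
  rcases hk.1.lt_or_eq with h | h
  · exact h
  · rw [← h] at hk0
    linarith

lemma root_unique {k k' : ℝ} (h0 : 0 < k) (h1 : k < 1) (h0' : 0 < k') (h1' : k' < 1)
    (hk : Phi k = 0) (hk' : Phi k' = 0) : k = k' := by
  rcases lt_trichotomy k k' with h | h | h
  · have := Phi_strictAnti h0.le h h1'
    linarith
  · exact h
  · have := Phi_strictAnti h0'.le h h1
    linarith


lemma FTC_Ioi {G G' : ℝ → ℝ} {l0 l1 : ℝ} (h : ∀ x, 0 < x → HasDerivAt G (G' x) x)
    (hi : IntegrableOn G' (Ioi 0)) (h0 : Tendsto G (𝓝[>] 0) (𝓝 l0))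
    (h1 : Tendsto G atTop (𝓝 l1)) : ∫ x in Ioi 0, G' x = l1 - l0 := by
  let f := Function.update G 0 l0
  have hderiv : ∀ x ∈ Ioi (0:ℝ), HasDerivAt f (G' x) x := by
    intro x hx
    apply (h x hx).congr_of_eventuallyEq
    filter_upwards [eventually_ne_nhds (ne_of_gt hx)] with y hy
    exact Function.update_of_ne hy l0 G
  have htendsto : Tendsto f atTop (𝓝 l1) := by
    apply h1.congr'
    filter_upwards [eventually_ne_atTop 0] with x hx
    exact (Function.update_of_ne hx l0 G).symm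
  have hc : ContinuousWithinAt f (Ici 0) 0 := by
    have : Tendsto G (𝓝[Ici 0 \ {0}] 0) (𝓝 l0) := by
      rw [Ici_sdiff_left]; exact h0
    exact continuousWithinAt_update_same.mpr this
  have := integral_Ioi_of_hasDerivAt_of_tendsto hc hderiv hi htendsto
  rw [this]
  simp [f]

structure Adm (f f1 f2 : ℝ → ℝ) : Prop where
  d1 : ∀ x, 0 < x → HasDerivAt f (f1 x) x
  d2 : ∀ x, 0 < x → HasDerivAt f1 (f2 x) x
  m2 : AEStronglyMeasurable f2 (volume.restrict (Ioi 0))
  iA : IntegrableOn (fun x => x * f x ^ 2) (Ioi 0)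
  iC : IntegrableOn (fun x => x * f2 x ^ 2) (Ioi 0)

namespace Adm

variable {f f1 f2 : ℝ → ℝ} (h : Adm f f1 f2)

include h

lemma cont0 : ContinuousOn f (Ioi 0) := fun x hx => (h.d1 x hx).continuousAt.continuousWithinAt

lemma cont1 : ContinuousOn f1 (Ioi 0) := fun x hx => (h.d2 x hx).continuousAt.continuousWithinAt

lemma m0 : AEStronglyMeasurable f (volume.restrict (Ioi 0)) :=
  h.cont0.aestronglyMeasurable measurableSet_Ioi

lemma m1 : AEStronglyMeasurable f1 (volume.restrict (Ioi 0)) :=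
  h.cont1.aestronglyMeasurable measurableSet_Ioi

lemma f2_int {a b : ℝ} (ha : 0 < a) : IntegrableOn f2 (Ioc a b) := by
  have hsub : Ioc a b ⊆ Ioi 0 := fun x hx => lt_trans ha hx.1
  have hb : IntegrableOn (fun x => 1 + (1 / a) * (x * f2 x ^ 2)) (Ioc a b) :=
    (integrableOn_const (by simp)).add ((h.iC.mono_set hsub).const_mul _)
  refine Integrable.mono' hb (h.m2.mono_measure (Measure.restrict_mono hsub le_rfl)) ?_
  refine (ae_restrict_iff' measurableSet_Ioc).2 (Eventually.of_forall fun x hx => ?_)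
  have hx0 : 0 < x := hsub hx
  have h1 : 1 ≤ (1 / a) * x := by
    rw [one_div, inv_mul_eq_div, one_le_div ha]
    exact hx.1.le
  have h2 : f2 x ^ 2 ≤ (1 / a) * (x * f2 x ^ 2) := by
    nlinarith [sq_nonneg (f2 x)]
  rw [Real.norm_eq_abs]
  nlinarith [sq_nonneg (|f2 x| - 1), sq_abs (f2 x), abs_nonneg (f2 x)]

lemma f2_ii {a b : ℝ} (ha : 0 < a) (hab : a ≤ b) : IntervalIntegrable f2 volume a b := by
  rw [intervalIntegrable_iff_integrableOn_Ioc_of_le hab]
  exact h.f2_int ha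

lemma f1_sub {a b : ℝ} (ha : 0 < a) (hab : a ≤ b) : f1 b - f1 a = ∫ t in a..b, f2 t := by
  rw [intervalIntegral.integral_eq_sub_of_hasDerivAt _ (h.f2_ii ha hab)]
  intro x hx
  rw [uIcc_of_le hab] at hx
  exact h.d2 x (lt_of_lt_of_le ha hx.1)

lemma f1_bound {x : ℝ} (hx : 0 < x) (hx1 : x ≤ 1) :
    |f1 x| ≤ (|f1 1| + (∫ t in Ioi 0, t * f2 t ^ 2)) - log x := by
  have h1 := h.f1_sub hx hx1
  have h2 : |∫ t in x..1, f2 t| ≤ ∫ t in x..1, |f2 t| :=
    intervalIntegral.abs_integral_le_integral_abs hx1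
  have hsub : Ioc x 1 ⊆ Ioi 0 := fun t ht => lt_trans hx ht.1
  have hiC : IntervalIntegrable (fun t => t * f2 t ^ 2) volume x 1 := by
    rw [intervalIntegrable_iff_integrableOn_Ioc_of_le hx1]
    exact h.iC.mono_set hsub
  have hiL : IntervalIntegrable (fun t : ℝ => t⁻¹) volume x 1 := by
    refine ContinuousOn.intervalIntegrable_of_Icc hx1 ?_
    exact continuousOn_inv₀.mono fun t ht => (lt_of_lt_of_le hx ht.1).ne'
  have h3 : (∫ t in x..1, |f2 t|) ≤ ∫ t in x..1, (t * f2 t ^ 2 + t⁻¹) := by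
    refine intervalIntegral.integral_mono_on hx1 (h.f2_ii hx hx1).abs (hiC.add hiL) ?_
    intro t ht
    have ht0 : 0 < t := lt_of_lt_of_le hx ht.1
    have e : t * t⁻¹ = 1 := mul_inv_cancel₀ ht0.ne'
    have hti : 0 < t⁻¹ := inv_pos.2 ht0
    -- (t|f2| - 1)^2 >= 0 divided by t
    have h5 : 0 ≤ t⁻¹ * (t * |f2 t| - 1) ^ 2 := by positivity
    have h6 : t⁻¹ * (t * |f2 t| - 1) ^ 2 = t * |f2 t| ^ 2 - 2 * |f2 t| + t⁻¹ := by
      field_simp
      ring
    rw [h6, sq_abs] at h5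
    have := abs_nonneg (f2 t)
    linarith
  have h4 : (∫ t in x..1, (t * f2 t ^ 2 + t⁻¹)) = (∫ t in x..1, t * f2 t ^ 2) + (- log x) := by
    rw [intervalIntegral.integral_add hiC hiL, integral_inv_of_pos hx one_pos]
    simp
  have h5 : (∫ t in x..1, t * f2 t ^ 2) ≤ ∫ t in Ioi 0, t * f2 t ^ 2 := by
    rw [intervalIntegral.integral_of_le hx1]
    refine setIntegral_mono_set h.iC ?_ hsub.eventuallyLE
    refine (ae_restrict_iff' measurableSet_Ioi).2 (Eventually.of_forall fun t ht => ?_)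
    have : (0:ℝ) < t := ht
    positivity
  have h6 : |f1 x| ≤ |f1 1| + |∫ t in x..1, f2 t| := by
    have : f1 x = f1 1 - ∫ t in x..1, f2 t := by linarith
    rw [this]
    exact abs_sub _ _
  linarith

lemma f1_int01 : IntegrableOn f1 (Ioc 0 1) := by
  have hlog : IntegrableOn (fun x => (|f1 1| + (∫ t in Ioi 0, t * f2 t ^ 2)) - log x) (Ioc 0 1) := by
    refine (integrableOn_const (by simp)).sub ?_
    have := (intervalIntegral.intervalIntegrable_log' (a := 0) (b := 1))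
    rwa [intervalIntegrable_iff_integrableOn_Ioc_of_le zero_le_one] at this
  refine Integrable.mono' hlog
    (h.m1.mono_measure (Measure.restrict_mono Ioc_subset_Ioi_self le_rfl)) ?_
  refine (ae_restrict_iff' measurableSet_Ioc).2 (Eventually.of_forall fun x hx => ?_)
  exact h.f1_bound hx.1 hx.2

/-- limit at `0+` -/
lemma exists_limit : ∃ b, Tendsto f (𝓝[>] 0) (𝓝 b) := by
  have hI : IntegrableOn f1 (uIcc 0 1) := by
    rw [uIcc_of_le zero_le_one]
    rw [integrableOn_Icc_iff_integrableOn_Ioc]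
    exact h.f1_int01
  have hc := intervalIntegral.continuousOn_primitive_interval_left hI
  have hc0 := hc 0 (by rw [uIcc_of_le zero_le_one]; exact ⟨le_rfl, zero_le_one⟩)
  have h1 : Tendsto (fun x => ∫ t in x..1, f1 t) (𝓝[>] 0) (𝓝 (∫ t in (0:ℝ)..1, f1 t)) := by
    have h2 : 𝓝[>] (0:ℝ) ≤ 𝓝[uIcc 0 1] 0 := by
      rw [uIcc_of_le zero_le_one]
      rw [← nhdsWithin_Ioo_eq_nhdsGT (zero_lt_one' ℝ)]
      exact nhdsWithin_mono _ Ioo_subset_Icc_self
    exact hc0.tendsto.mono_left h2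
  refine ⟨f 1 - ∫ t in (0:ℝ)..1, f1 t, ?_⟩
  have h3 := (tendsto_const_nhds (x := f 1)).sub h1
  refine h3.congr' ?_
  filter_upwards [Ioo_mem_nhdsGT (zero_lt_one' ℝ)] with x hx
  have h4 : ∫ t in x..1, f1 t = f 1 - f x := by
    rw [intervalIntegral.integral_eq_sub_of_hasDerivAt]
    · intro y hy
      rw [uIcc_of_le hx.2.le] at hy
      exact h.d1 y (lt_of_lt_of_le hx.1 hy.1)
    · rw [intervalIntegrable_iff_integrableOn_Ioc_of_le hx.2.le]
      exact h.f1_int01.mono_set (Ioc_subset_Ioc_left hx.1.le)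
  rw [h4]; ring

lemma xf1_tendsto : Tendsto (fun x => x * f1 x) (𝓝[>] 0) (𝓝 0) := by
  set M := |f1 1| + (∫ t in Ioi 0, t * f2 t ^ 2) with hM
  have hc : Continuous (fun x : ℝ => x * M - x * log x) :=
    (continuous_id.mul continuous_const).sub Real.continuous_mul_log
  have h1 : Tendsto (fun x : ℝ => x * M - x * log x) (𝓝[>] 0) (𝓝 0) := by
    have := (hc.tendsto 0).mono_left (nhdsWithin_le_nhds (s := Ioi 0))
    simpa using this
  refine squeeze_zero_norm' ?_ h1
  filter_upwards [Ioo_mem_nhdsGT (zero_lt_one' ℝ)] with x hx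
  have := h.f1_bound hx.1 hx.2.le
  rw [Real.norm_eq_abs, abs_mul, abs_of_pos hx.1]
  nlinarith [hx.1]

lemma G_deriv {x : ℝ} (hx : 0 < x) :
    HasDerivAt (fun x => x * f x * f1 x - f x ^ 2 / 2) (x * f1 x ^ 2 + x * (f x * f2 x)) x := by
  have h1 := ((hasDerivAt_id x).fun_mul (h.d1 x hx)).fun_mul (h.d2 x hx)
  have h2 := ((h.d1 x hx).fun_pow 2).div_const 2
  refine (h1.sub h2).congr_deriv ?_
  simp only [id]
  norm_num
  ring

lemma G_zero {b : ℝ} (hb : Tendsto f (𝓝[>] 0) (𝓝 b)) :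
    Tendsto (fun x => x * f x * f1 x - f x ^ 2 / 2) (𝓝[>] 0) (𝓝 (-(b ^ 2 / 2))) := by
  have h1 := (hb.mul h.xf1_tendsto).sub ((hb.pow 2).div_const 2)
  have e : b * 0 - b ^ 2 / 2 = -(b ^ 2 / 2) := by ring
  rw [e] at h1
  refine h1.congr fun x => ?_
  ring

lemma iff2 : IntegrableOn (fun x => x * (f x * f2 x)) (Ioi 0) := by
  refine Integrable.mono' (h.iA.add h.iC) ?_ ?_
  · exact (measurable_id.aestronglyMeasurable).mul (h.m0.mul h.m2)
  · refine (ae_restrict_iff' measurableSet_Ioi).2 (Eventually.of_forall fun x hx => ?_)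
    have hx0 : (0:ℝ) < x := hx
    simp only [Pi.add_apply]
    rw [Real.norm_eq_abs, abs_mul, abs_of_pos hx0, abs_mul, ← sq_abs (f x), ← sq_abs (f2 x)]
    have := abs_nonneg (f x)
    have := abs_nonneg (f2 x)
    nlinarith [sq_nonneg (|f x| - |f2 x|), mul_nonneg (abs_nonneg (f x)) (abs_nonneg (f2 x))]

lemma iB01 : IntegrableOn (fun x => x * f1 x ^ 2) (Ioc 0 1) := by
  set M := |f1 1| + (∫ t in Ioi 0, t * f2 t ^ 2) with hM
  have hM0 : 0 ≤ M := by
    have : 0 ≤ ∫ t in Ioi 0, t * f2 t ^ 2 := by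
      refine setIntegral_nonneg measurableSet_Ioi fun t ht => ?_
      have : (0:ℝ) < t := ht
      positivity
    positivity
  refine Integrable.mono' (integrableOn_const (C := 2 * (M ^ 2 + 4)) (by simp)) ?_ ?_
  · exact (measurable_id.aestronglyMeasurable).mul
      ((h.m1.mono_measure (Measure.restrict_mono Ioc_subset_Ioi_self le_rfl)).pow 2)
  · refine (ae_restrict_iff' measurableSet_Ioc).2 (Eventually.of_forall fun x hx => ?_)
    have hx0 : 0 < x := hx.1
    have hb := h.f1_bound hx.1 hx.2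
    rw [← hM] at hb
    have hlog : -log x ≤ 2 / √x := by
      have hs : 0 < √x := Real.sqrt_pos.2 hx0
      have h1 := Real.log_le_sub_one_of_pos (x := 1 / √x) (by positivity)
      rw [one_div, Real.log_inv, Real.log_sqrt hx0.le] at h1
      have : 2 / √x = 2 * (√x)⁻¹ := by ring
      rw [this]
      linarith
    have hlog0 : 0 ≤ - log x := by
      have := Real.log_nonpos hx0.le hx.2
      linarith
    have hL2 : x * (-log x) ^ 2 ≤ 4 := by
      have : (-log x) ^ 2 ≤ (2 / √x) ^ 2 := pow_le_pow_left₀ hlog0 hlog 2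
      rw [div_pow, Real.sq_sqrt hx0.le] at this
      calc x * (-log x) ^ 2 ≤ x * (2 ^ 2 / x) := by gcongr
        _ = 4 := by field_simp; norm_num
    rw [Real.norm_eq_abs, abs_of_nonneg (by positivity), ← sq_abs (f1 x)]
    have h3 : |f1 x| ^ 2 ≤ (M - log x) ^ 2 := pow_le_pow_left₀ (abs_nonneg _) hb 2
    have h4 : (M - log x) ^ 2 ≤ 2 * (M ^ 2 + (-log x) ^ 2) := by nlinarith [sq_nonneg (M + log x)]
    calc x * |f1 x| ^ 2 ≤ x * (2 * (M ^ 2 + (-log x) ^ 2)) := by gcongr; linarith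
      _ = 2 * (x * M ^ 2 + x * (-log x) ^ 2) := by ring
      _ ≤ 2 * (M ^ 2 + 4) := by
        have : x * M ^ 2 ≤ M ^ 2 := by nlinarith [sq_nonneg M, hx.2]
        linarith

lemma iB1 : IntegrableOn (fun x => x * f1 x ^ 2) (Ioi 1) := by
  by_contra hni
  have hii : ∀ R, 1 ≤ R → IntervalIntegrable (fun x => x * f1 x ^ 2) volume 1 R := by
    intro R hR
    refine ContinuousOn.intervalIntegrable_of_Icc hR ?_
    have : ContinuousOn f1 (Icc 1 R) := h.cont1.mono fun x hx => lt_of_lt_of_le one_pos hx.1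
    exact continuousOn_id.mul (this.pow 2)
  have hii2 : ∀ R, 1 ≤ R → IntervalIntegrable (fun x => x * (f x * f2 x)) volume 1 R := by
    intro R hR
    rw [intervalIntegrable_iff_integrableOn_Ioc_of_le hR]
    exact h.iff2.mono_set fun x hx => lt_trans one_pos hx.1
  set D := ∫ x in Ioi 0, |x * (f x * f2 x)| with hD
  have hDb : ∀ R, 1 ≤ R → |∫ x in (1:ℝ)..R, x * (f x * f2 x)| ≤ D := by
    intro R hR
    refine (intervalIntegral.abs_integral_le_integral_abs hR).trans ?_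
    rw [intervalIntegral.integral_of_le hR]
    refine setIntegral_mono_set h.iff2.abs ?_ ?_
    · exact Eventually.of_forall fun x => abs_nonneg _
    · have hs : Ioc 1 R ⊆ Ioi 0 := fun x hx => lt_trans one_pos hx.1
      exact hs.eventuallyLE
  have hunb : ∀ I : ℝ, ∃ R, 1 ≤ R ∧ I < ∫ x in (1:ℝ)..R, x * f1 x ^ 2 := by
    intro I
    by_contra hcon
    push Not at hcon
    apply hni
    refine integrableOn_Ioi_of_intervalIntegral_norm_bounded (l := atTop)
      (b := fun n : ℕ => (n : ℝ) + 1) I 1 ?_ ?_ ?_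
    · intro n
      have := hii ((n : ℝ) + 1) (by linarith [Nat.cast_nonneg (α := ℝ) n])
      rwa [intervalIntegrable_iff_integrableOn_Ioc_of_le (by linarith [Nat.cast_nonneg (α := ℝ) n])] at this
    · exact tendsto_atTop_add_const_right _ _ tendsto_natCast_atTop_atTop
    · refine Eventually.of_forall fun n => ?_
      have hn : (1:ℝ) ≤ (n : ℝ) + 1 := by linarith [Nat.cast_nonneg (α := ℝ) n]
      refine le_trans (le_of_eq ?_) (hcon ((n : ℝ) + 1) hn)
      refine intervalIntegral.integral_congr fun x hx => ?_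
      rw [uIcc_of_le hn] at hx
      have : (0:ℝ) < x := lt_of_lt_of_le one_pos hx.1
      simp only [Real.norm_eq_abs]
      rw [abs_of_nonneg (by positivity)]
  set G : ℝ → ℝ := fun x => x * f x * f1 x - f x ^ 2 / 2 with hG
  have hGR : ∀ R, 1 ≤ R → G R - G 1 = (∫ x in (1:ℝ)..R, x * f1 x ^ 2) + ∫ x in (1:ℝ)..R, x * (f x * f2 x) := by
    intro R hR
    rw [← intervalIntegral.integral_add (hii R hR) (hii2 R hR)]
    rw [intervalIntegral.integral_eq_sub_of_hasDerivAt (f := G) _ ((hii R hR).add (hii2 R hR))]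
    intro x hx
    rw [uIcc_of_le hR] at hx
    exact h.G_deriv (lt_of_lt_of_le one_pos hx.1)
  obtain ⟨R₀, hR₀, hbig⟩ := hunb (1 + D + |G 1|)
  have hG1 : ∀ R, R₀ ≤ R → 1 ≤ G R := by
    intro R hR
    have hR1 : 1 ≤ R := hR₀.trans hR
    have h1 := hGR R hR1
    have h2 := hDb R hR1
    have h3 : (∫ x in (1:ℝ)..R₀, x * f1 x ^ 2) ≤ ∫ x in (1:ℝ)..R, x * f1 x ^ 2 := by
      refine intervalIntegral.integral_mono_interval le_rfl hR₀ hR ?_ (hii R hR1)
      refine (ae_restrict_iff' measurableSet_Ioc).2 (Eventually.of_forall fun x hx => ?_)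
      have : (0:ℝ) < x := lt_trans one_pos hx.1
      simp only [Pi.zero_apply]
      positivity
    have h4 := neg_abs_le (G 1)
    have h5 := neg_abs_le (∫ x in (1:ℝ)..R, x * (f x * f2 x))
    linarith
  have hmono : StrictMonoOn (fun x => f x ^ 2) (Ici R₀) := by
    refine strictMonoOn_of_deriv_pos (convex_Ici R₀) ?_ ?_
    · exact (h.cont0.mono fun x hx => lt_of_lt_of_le (lt_of_lt_of_le one_pos hR₀) hx).pow 2
    · intro x hx
      rw [interior_Ici] at hx
      have hx0 : 0 < x := lt_trans (lt_of_lt_of_le one_pos hR₀) hx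
      have hd := ((h.d1 x hx0).fun_pow 2).deriv
      rw [hd]
      have hg := hG1 x (le_of_lt hx)
      simp only [hG] at hg
      have h1 : 0 < x * (f x * f1 x) := by nlinarith [sq_nonneg (f x)]
      have h2 : 0 < f x * f1 x := by
        rcases (mul_pos_iff.1 h1) with h | h
        · exact h.2
        · linarith [h.1]
      norm_num
      nlinarith
  have hc : 0 < f (R₀ + 1) ^ 2 := by
    have := hmono (show R₀ ∈ Ici R₀ from by simp) (show R₀ + 1 ∈ Ici R₀ from by simp) (by linarith : R₀ < R₀ + 1)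
    simp only at this
    nlinarith [sq_nonneg (f R₀)]
  have hint : IntegrableOn (fun _ : ℝ => f (R₀ + 1) ^ 2) (Ioi (R₀ + 1)) := by
    have hsub : Ioi (R₀ + 1) ⊆ Ioi (0:ℝ) := fun x hx => by
      have : R₀ + 1 < x := hx
      show (0:ℝ) < x
      linarith
    refine Integrable.mono' (h.iA.mono_set hsub) aestronglyMeasurable_const ?_
    refine (ae_restrict_iff' measurableSet_Ioi).2 (Eventually.of_forall fun x hx => ?_)
    have hx' : R₀ + 1 < x := hx
    have hm := hmono (show R₀ + 1 ∈ Ici R₀ from by simp) (show x ∈ Ici R₀ from by simp; linarith) hx'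
    simp only at hm
    rw [Real.norm_eq_abs, abs_of_nonneg (sq_nonneg _)]
    have : f x ^ 2 ≤ x * f x ^ 2 := by nlinarith [sq_nonneg (f x)]
    linarith
  rw [integrableOn_const_iff] at hint
  rcases hint with hint | hint
  · exact hc.ne' (by simpa using hint)
  · simp at hint

lemma iB : IntegrableOn (fun x => x * f1 x ^ 2) (Ioi 0) := by
  have : Ioi (0:ℝ) = Ioc 0 1 ∪ Ioi 1 := (Ioc_union_Ioi_eq_Ioi zero_le_one).symm
  rw [this]
  exact h.iB01.union h.iB1

end Adm



lemma prod_int {u v : ℝ → ℝ} {s : Set ℝ} (hs : MeasurableSet s) (hs0 : s ⊆ Ioi 0)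
    (hu : AEStronglyMeasurable u (volume.restrict s)) (hv : AEStronglyMeasurable v (volume.restrict s))
    (hiu : IntegrableOn (fun x => x * u x ^ 2) s) (hiv : IntegrableOn (fun x => x * v x ^ 2) s) :
    IntegrableOn (fun x => x * (u x * v x)) s := by
  refine Integrable.mono' (hiu.add hiv) ?_ ?_
  · exact (measurable_id.aestronglyMeasurable).mul (hu.mul hv)
  · refine (ae_restrict_iff' hs).2 (Eventually.of_forall fun x hx => ?_)
    have hx0 : (0:ℝ) < x := hs0 hx
    simp only [Pi.add_apply]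
    rw [Real.norm_eq_abs, abs_mul, abs_of_pos hx0, abs_mul, ← sq_abs (u x), ← sq_abs (v x)]
    nlinarith [sq_nonneg (|u x| - |v x|), mul_nonneg (abs_nonneg (u x)) (abs_nonneg (v x))]

namespace Adm

variable {f f1 f2 : ℝ → ℝ} (h : Adm f f1 f2)

include h

lemma sq_int1 : IntegrableOn (fun x => f x ^ 2) (Ioi 1) := by
  have hsub : Ioi (1:ℝ) ⊆ Ioi 0 := Ioi_subset_Ioi zero_le_one
  refine Integrable.mono' (h.iA.mono_set hsub)
    ((h.m0.mono_measure (Measure.restrict_mono hsub le_rfl)).pow 2) ?_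
  refine (ae_restrict_iff' measurableSet_Ioi).2 (Eventually.of_forall fun x hx => ?_)
  have hx' : (1:ℝ) < x := hx
  rw [Real.norm_eq_abs, abs_of_nonneg (sq_nonneg _)]
  nlinarith [sq_nonneg (f x)]

lemma G_top : Tendsto (fun x => x * f x * f1 x - f x ^ 2 / 2) atTop (𝓝 0) := by
  have hsub : Ioi (1:ℝ) ⊆ Ioi 0 := Ioi_subset_Ioi zero_le_one
  refine tendsto_zero_of_hasDerivAt_of_integrableOn_Ioi (a := 1)
    (f' := fun x => x * f1 x ^ 2 + x * (f x * f2 x)) ?_ ?_ ?_
  · intro x hx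
    exact h.G_deriv (hsub hx)
  · exact (h.iB.mono_set hsub).add (h.iff2.mono_set hsub)
  · have h1 : IntegrableOn (fun x => x * (f x * f1 x)) (Ioi 1) :=
      (prod_int measurableSet_Ioi subset_rfl h.m0 h.m1 h.iA h.iB).mono_set hsub
    have h2 := h1.sub (h.sq_int1.div_const 2)
    refine h2.congr_fun (fun x _ => ?_) measurableSet_Ioi
    simp only [Pi.sub_apply]
    ring

lemma identity {b : ℝ} (hb : Tendsto f (𝓝[>] 0) (𝓝 b)) :
    (∫ x in Ioi 0, x * f1 x ^ 2) + ∫ x in Ioi 0, x * (f x * f2 x) = b ^ 2 / 2 := by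
  rw [← integral_add h.iB h.iff2]
  rw [FTC_Ioi (fun x hx => h.G_deriv hx) (h.iB.add h.iff2) (h.G_zero hb) h.G_top]
  ring

/-- If the boundary value vanishes then `2B ≤ A + C`. -/
lemma ineq_of_zero (hb : Tendsto f (𝓝[>] 0) (𝓝 0)) :
    2 * (∫ x in Ioi 0, x * f1 x ^ 2) ≤ (∫ x in Ioi 0, x * f x ^ 2) + ∫ x in Ioi 0, x * f2 x ^ 2 := by
  have h1 := h.identity hb
  have h2 : - (∫ x in Ioi 0, x * (f x * f2 x)) ≤
      ((∫ x in Ioi 0, x * f x ^ 2) + ∫ x in Ioi 0, x * f2 x ^ 2) / 2 := by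
    rw [← integral_add h.iA h.iC, ← integral_neg, ← integral_div]
    refine setIntegral_mono_on h.iff2.neg ((h.iA.add h.iC).div_const 2) measurableSet_Ioi ?_
    intro x hx
    have hx0 : (0:ℝ) < x := hx
    nlinarith [mul_nonneg hx0.le (sq_nonneg (f x + f2 x))]
  have e : (0:ℝ) ^ 2 / 2 = 0 := by norm_num
  rw [e] at h1
  linarith

omit h in
lemma B_nonneg : 0 ≤ ∫ x in Ioi 0, x * f1 x ^ 2 := by
  refine setIntegral_nonneg measurableSet_Ioi fun t ht => ?_
  have : (0:ℝ) < t := ht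
  positivity

end Adm

/-- exponential decay integrability -/
lemma exp_sq_int {u : ℝ → ℝ} (hu : Continuous u) {M δ : ℝ} (hδ : 0 < δ)
    (hb : ∀ x, 0 ≤ x → |u x| ≤ M * Real.exp (-(δ * x))) :
    IntegrableOn (fun x => x * u x ^ 2) (Ioi 0) := by
  have hM : 0 ≤ M := by
    have := hb 0 le_rfl
    simp at this
    exact (abs_nonneg _).trans this
  have hI : IntegrableOn (fun x => M ^ 2 / δ * Real.exp (-(δ * x))) (Ioi 0) := by
    have : IntegrableOn (fun x => M ^ 2 / δ * Real.exp (-δ * x)) (Ioi 0) :=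
      (integrableOn_exp_mul_Ioi (a := -δ) (by linarith) 0).const_mul (M ^ 2 / δ)
    simpa only [neg_mul] using this
  refine Integrable.mono' hI ?_ ?_
  · exact (continuous_id.mul (hu.pow 2)).aestronglyMeasurable
  · refine (ae_restrict_iff' measurableSet_Ioi).2 (Eventually.of_forall fun x hx => ?_)
    have hx0 : (0:ℝ) < x := hx
    rw [Real.norm_eq_abs, abs_of_nonneg (by positivity), ← sq_abs (u x)]
    have h1 := hb x hx0.le
    have h2 : |u x| ^ 2 ≤ (M * Real.exp (-(δ * x))) ^ 2 := pow_le_pow_left₀ (abs_nonneg _) h1 2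
    have h3 : δ * x ≤ Real.exp (δ * x) := by
      have := Real.add_one_le_exp (δ * x)
      linarith
    have h4 : x * Real.exp (-(δ * x)) ≤ 1 / δ := by
      rw [Real.exp_neg, le_div_iff₀ hδ]
      have := Real.exp_pos (δ * x)
      rw [mul_assoc, mul_comm, mul_assoc, inv_mul_le_iff₀ this]
      linarith
    calc x * |u x| ^ 2 ≤ x * (M * Real.exp (-(δ * x))) ^ 2 := by gcongr
      _ = M ^ 2 * (x * Real.exp (-(δ * x))) * Real.exp (-(δ * x)) := by ring
      _ ≤ M ^ 2 * (1 / δ) * Real.exp (-(δ * x)) := by gcongr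
      _ = M ^ 2 / δ * Real.exp (-(δ * x)) := by ring

lemma g_sq_int {k : ℝ} (hk : k ^ 2 < 1) (j : ℕ) : IntegrableOn (fun x => x * g k j x ^ 2) (Ioi 0) := by
  have hδ : 0 < √(1 - k ^ 2) := Real.sqrt_pos.2 (by linarith)
  exact exp_sq_int (g_cont hk j) hδ fun x hx => g_bound hk j hx

lemma g_adm {k : ℝ} (hk : k ^ 2 < 1) : Adm (g k 0) (g k 1) (g k 2) where
  d1 := fun x _ => g_hasDeriv hk 0 x
  d2 := fun x _ => g_hasDeriv hk 1 x
  m2 := (g_cont hk 2).aestronglyMeasurable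
  iA := g_sq_int hk 0
  iC := g_sq_int hk 2

/-- decaying products -/
lemma exp_int_mul {u v : ℝ → ℝ} (hu : AEStronglyMeasurable u (volume.restrict (Ioi 1)))
    (hi : IntegrableOn (fun x => x * u x ^ 2) (Ioi 1)) (hv : Continuous v) {M δ : ℝ} (hδ : 0 < δ)
    (hb : ∀ x, 0 ≤ x → |v x| ≤ M * Real.exp (-(δ * x))) :
    IntegrableOn (fun x => x * (u x * v x)) (Ioi 1) := by
  have hsub : Ioi (1:ℝ) ⊆ Ioi 0 := Ioi_subset_Ioi zero_le_one
  have hv2 := (exp_sq_int hv hδ hb).mono_set hsub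
  refine Integrable.mono' (hi.add hv2) ?_ ?_
  · exact (measurable_id.aestronglyMeasurable).mul (hu.mul hv.aestronglyMeasurable)
  · refine (ae_restrict_iff' measurableSet_Ioi).2 (Eventually.of_forall fun x hx => ?_)
    have hx0 : (0:ℝ) < x := hsub hx
    simp only [Pi.add_apply]
    rw [Real.norm_eq_abs, abs_mul, abs_of_pos hx0, abs_mul, ← sq_abs (u x), ← sq_abs (v x)]
    nlinarith [sq_nonneg (|u x| - |v x|), mul_nonneg (abs_nonneg (u x)) (abs_nonneg (v x))]

namespace Adm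

variable {f f1 f2 : ℝ → ℝ} (h : Adm f f1 f2)

include h

lemma W_deriv {k : ℝ} (hk : k ^ 2 < 1) {x : ℝ} (hx : 0 < x) :
    HasDerivAt (fun x => x * g k 2 x * f1 x - (g k 2 x + x * g k 3 x) * f x
        - (4 * k ^ 2 - 2) * (x * g k 1 x * f x))
      (x * (f2 x * g k 2 x) - (4 * k ^ 2 - 2) * (x * (f1 x * g k 1 x)) + x * (f x * g k 0 x)) x := by
  have hid := hasDerivAt_id x
  have h1 := (hid.fun_mul (g_hasDeriv hk 2 x)).fun_mul (h.d2 x hx)
  have h2 := ((g_hasDeriv hk 2 x).fun_add (hid.fun_mul (g_hasDeriv hk 3 x))).fun_mul (h.d1 x hx)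
  have h3 := ((hid.fun_mul (g_hasDeriv hk 1 x)).fun_mul (h.d1 x hx)).const_mul (4 * k ^ 2 - 2)
  refine ((h1.fun_sub h2).fun_sub h3).congr_deriv ?_
  simp only [id]
  have ho := g_ode hk x
  norm_num at *
  linear_combination (- f x) * ho

lemma W_zero {k : ℝ} (hk : k ^ 2 < 1) {b : ℝ} (hb : Tendsto f (𝓝[>] 0) (𝓝 b)) :
    Tendsto (fun x => x * g k 2 x * f1 x - (g k 2 x + x * g k 3 x) * f x
        - (4 * k ^ 2 - 2) * (x * g k 1 x * f x)) (𝓝[>] 0) (𝓝 (-(g k 2 0 * b))) := by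
  have hg : ∀ j, Tendsto (g k j) (𝓝[>] 0) (𝓝 (g k j 0)) := fun j =>
    ((g_cont hk j).tendsto 0).mono_left nhdsWithin_le_nhds
  have hid : Tendsto (fun x : ℝ => x) (𝓝[>] 0) (𝓝 0) := tendsto_id.mono_left nhdsWithin_le_nhds
  have h1 := h.xf1_tendsto.mul (hg 2)
  have h2 := ((hg 2).add (hid.mul (hg 3))).mul hb
  have h3 := ((hid.mul (hg 1)).mul hb).const_mul (4 * k ^ 2 - 2)
  have h4 := (h1.sub h2).sub h3
  have e : 0 * g k 2 0 - (g k 2 0 + 0 * g k 3 0) * b - (4 * k ^ 2 - 2) * (0 * g k 1 0 * b) = -(g k 2 0 * b) := by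
    ring
  rw [e] at h4
  refine h4.congr fun x => ?_
  ring

lemma cross_int {k : ℝ} (hk : k ^ 2 < 1) :
    IntegrableOn (fun x => x * (f2 x * g k 2 x)) (Ioi 0) ∧
    IntegrableOn (fun x => x * (f1 x * g k 1 x)) (Ioi 0) ∧
    IntegrableOn (fun x => x * (f x * g k 0 x)) (Ioi 0) := by
  refine ⟨?_, ?_, ?_⟩
  · exact prod_int measurableSet_Ioi subset_rfl h.m2 (g_cont hk 2).aestronglyMeasurable h.iC (g_sq_int hk 2)
  · exact prod_int measurableSet_Ioi subset_rfl h.m1 (g_cont hk 1).aestronglyMeasurable h.iB (g_sq_int hk 1)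
  · exact prod_int measurableSet_Ioi subset_rfl h.m0 (g_cont hk 0).aestronglyMeasurable h.iA (g_sq_int hk 0)

lemma W_top {k : ℝ} (hk : k ^ 2 < 1) :
    Tendsto (fun x => x * g k 2 x * f1 x - (g k 2 x + x * g k 3 x) * f x
        - (4 * k ^ 2 - 2) * (x * g k 1 x * f x)) atTop (𝓝 0) := by
  have hsub : Ioi (1:ℝ) ⊆ Ioi 0 := Ioi_subset_Ioi zero_le_one
  obtain ⟨c1, c2, c3⟩ := h.cross_int hk
  refine tendsto_zero_of_hasDerivAt_of_integrableOn_Ioi (a := 1)
    (f' := fun x => x * (f2 x * g k 2 x) - (4 * k ^ 2 - 2) * (x * (f1 x * g k 1 x)) + x * (f x * g k 0 x))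
    ?_ ?_ ?_
  · intro x hx
    exact h.W_deriv hk (hsub hx)
  · exact ((c1.mono_set hsub).sub ((c2.mono_set hsub).const_mul _)).add (c3.mono_set hsub)
  · have i1 : IntegrableOn (fun x => x * (f1 x * g k 2 x)) (Ioi 1) :=
      (prod_int measurableSet_Ioi subset_rfl h.m1 (g_cont hk 2).aestronglyMeasurable h.iB
        (g_sq_int hk 2)).mono_set hsub
    have i2 : IntegrableOn (fun x => x * (f x * g k 3 x)) (Ioi 1) :=
      (prod_int measurableSet_Ioi subset_rfl h.m0 (g_cont hk 3).aestronglyMeasurable h.iA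
        (g_sq_int hk 3)).mono_set hsub
    have i3 : IntegrableOn (fun x => x * (f x * g k 1 x)) (Ioi 1) :=
      (prod_int measurableSet_Ioi subset_rfl h.m0 (g_cont hk 1).aestronglyMeasurable h.iA
        (g_sq_int hk 1)).mono_set hsub
    have i4' : IntegrableOn (fun x => x * (f x * g k 2 x)) (Ioi 1) :=
      (prod_int measurableSet_Ioi subset_rfl h.m0 (g_cont hk 2).aestronglyMeasurable h.iA
        (g_sq_int hk 2)).mono_set hsub
    have i4 : IntegrableOn (fun x => f x * g k 2 x) (Ioi 1) := by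
      refine Integrable.mono' i4'.norm
        ((h.m0.mono_measure (Measure.restrict_mono hsub le_rfl)).mul (g_cont hk 2).aestronglyMeasurable) ?_
      refine (ae_restrict_iff' measurableSet_Ioi).2 (Eventually.of_forall fun x hx => ?_)
      have hx' : (1:ℝ) < x := hx
      rw [norm_mul x, Real.norm_of_nonneg (by linarith : (0:ℝ) ≤ x)]
      nlinarith [norm_nonneg (f x * g k 2 x)]
    have := ((i1.sub i4).sub i2).sub (i3.const_mul (4 * k ^ 2 - 2))
    refine this.congr_fun (fun x _ => ?_) measurableSet_Ioi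
    simp only [Pi.sub_apply]
    ring

/-- the bilinear form against the extremal -/
lemma cross {k : ℝ} (hk : k ^ 2 < 1) {b : ℝ} (hb : Tendsto f (𝓝[>] 0) (𝓝 b)) :
    (∫ x in Ioi 0, (x * (f2 x * g k 2 x) - (4 * k ^ 2 - 2) * (x * (f1 x * g k 1 x))
      + x * (f x * g k 0 x))) = g k 2 0 * b := by
  obtain ⟨c1, c2, c3⟩ := h.cross_int hk
  rw [FTC_Ioi (fun x hx => h.W_deriv hk hx) ((c1.sub (c2.const_mul _)).add c3) (h.W_zero hk hb)
    (h.W_top hk)]
  ring

end Adm


lemma comb_int {a b c : ℝ → ℝ} {s : Set ℝ} (ha : IntegrableOn a s) (hb : IntegrableOn b s)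
    (hc : IntegrableOn c s) (γ : ℝ) :
    (∫ x in s, a x) + (∫ x in s, b x) - γ * (∫ x in s, c x) = ∫ x in s, (a x + b x - γ * c x) := by
  have h1 : IntegrableOn (fun x => a x + b x) s := ha.add hb
  have h2 : IntegrableOn (fun x => γ * c x) s := hc.const_mul γ
  rw [integral_sub h1 h2, integral_add ha hb, integral_const_mul]

namespace Adm

variable {f f1 f2 : ℝ → ℝ} (h : Adm f f1 f2)

include h

lemma sub_smul_g {k : ℝ} (hk : k ^ 2 < 1) (t : ℝ) :
    Adm (fun x => f x - t * g k 0 x) (fun x => f1 x - t * g k 1 x) (fun x => f2 x - t * g k 2 x) where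
  d1 := fun x hx => (h.d1 x hx).fun_sub ((g_hasDeriv hk 0 x).const_mul t)
  d2 := fun x hx => (h.d2 x hx).fun_sub ((g_hasDeriv hk 1 x).const_mul t)
  m2 := h.m2.sub ((g_cont hk 2).const_mul t).aestronglyMeasurable
  iA := by
    obtain ⟨_, _, c3⟩ := h.cross_int hk
    have := (h.iA.sub (c3.const_mul (2 * t))).add ((g_sq_int hk 0).const_mul (t ^ 2))
    refine this.congr_fun (fun x _ => ?_) measurableSet_Ioi
    simp only [Pi.sub_apply, Pi.add_apply]
    ring
  iC := by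
    obtain ⟨c1, _, _⟩ := h.cross_int hk
    have := (h.iC.sub (c1.const_mul (2 * t))).add ((g_sq_int hk 2).const_mul (t ^ 2))
    refine this.congr_fun (fun x _ => ?_) measurableSet_Ioi
    simp only [Pi.sub_apply, Pi.add_apply]
    ring

/-- the key inequality `c B ≤ A + C` at the critical value of `k` -/
lemma key {k : ℝ} (hk : k ^ 2 < 1) (h0 : g k 2 0 = 0) :
    (4 * k ^ 2 - 2) * (∫ x in Ioi 0, x * f1 x ^ 2) ≤
      (∫ x in Ioi 0, x * f x ^ 2) + ∫ x in Ioi 0, x * f2 x ^ 2 := by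
  obtain ⟨b, hb⟩ := h.exists_limit
  have hg0 := g_zero_zero_pos hk
  set t := b / g k 0 0 with ht
  have h' := h.sub_smul_g hk t
  have hlim : Tendsto (fun x => f x - t * g k 0 x) (𝓝[>] 0) (𝓝 0) := by
    have hg : Tendsto (g k 0) (𝓝[>] 0) (𝓝 (g k 0 0)) :=
      ((g_cont hk 0).tendsto 0).mono_left nhdsWithin_le_nhds
    have := hb.sub (hg.const_mul t)
    have e : b - t * g k 0 0 = 0 := by
      rw [ht]; field_simp; ring
    rwa [e] at this
  have h1 := h'.ineq_of_zero hlim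
  have hB := B_nonneg (f1 := fun x => f1 x - t * g k 1 x)
  have h2 : (4 * k ^ 2 - 2) * (∫ x in Ioi 0, x * (f1 x - t * g k 1 x) ^ 2) ≤
      (∫ x in Ioi 0, x * (f x - t * g k 0 x) ^ 2) + ∫ x in Ioi 0, x * (f2 x - t * g k 2 x) ^ 2 := by
    nlinarith
  have hcf := h.cross hk hb
  have hga := g_adm hk
  have hgb : Tendsto (g k 0) (𝓝[>] 0) (𝓝 (g k 0 0)) :=
    ((g_cont hk 0).tendsto 0).mono_left nhdsWithin_le_nhds
  have hcg := hga.cross hk hgb
  rw [h0, zero_mul] at hcf hcg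
  obtain ⟨c1, c2, c3⟩ := h.cross_int hk
  obtain ⟨d1, d2, d3⟩ := hga.cross_int hk
  have e1 : (∫ x in Ioi 0, x * (f x - t * g k 0 x) ^ 2) + (∫ x in Ioi 0, x * (f2 x - t * g k 2 x) ^ 2)
      - (4 * k ^ 2 - 2) * (∫ x in Ioi 0, x * (f1 x - t * g k 1 x) ^ 2)
      = (∫ x in Ioi 0, x * f x ^ 2) + (∫ x in Ioi 0, x * f2 x ^ 2)
      - (4 * k ^ 2 - 2) * (∫ x in Ioi 0, x * f1 x ^ 2)
      - 2 * t * (∫ x in Ioi 0, (x * (f2 x * g k 2 x) - (4 * k ^ 2 - 2) * (x * (f1 x * g k 1 x))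
          + x * (f x * g k 0 x)))
      + t ^ 2 * (∫ x in Ioi 0, (x * (g k 2 x * g k 2 x) - (4 * k ^ 2 - 2) * (x * (g k 1 x * g k 1 x))
          + x * (g k 0 x * g k 0 x))) := by
    rw [comb_int h'.iA h'.iC h'.iB, comb_int h.iA h.iC h.iB]
    rw [← integral_const_mul (2 * t), ← integral_const_mul (t ^ 2)]
    have i1 : IntegrableOn (fun x => x * f x ^ 2 + x * f2 x ^ 2 - (4 * k ^ 2 - 2) * (x * f1 x ^ 2)) (Ioi 0) :=
      (h.iA.add h.iC).sub (h.iB.const_mul _)
    have i2 : IntegrableOn (fun x => 2 * t * (x * (f2 x * g k 2 x) - (4 * k ^ 2 - 2) * (x * (f1 x * g k 1 x))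
          + x * (f x * g k 0 x))) (Ioi 0) := ((c1.sub (c2.const_mul _)).add c3).const_mul _
    have i3 : IntegrableOn (fun x => t ^ 2 * (x * (g k 2 x * g k 2 x) - (4 * k ^ 2 - 2) * (x * (g k 1 x * g k 1 x))
          + x * (g k 0 x * g k 0 x))) (Ioi 0) := ((d1.sub (d2.const_mul _)).add d3).const_mul _
    have i12 : IntegrableOn (fun x => x * f x ^ 2 + x * f2 x ^ 2 - (4 * k ^ 2 - 2) * (x * f1 x ^ 2)
        - 2 * t * (x * (f2 x * g k 2 x) - (4 * k ^ 2 - 2) * (x * (f1 x * g k 1 x))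
          + x * (f x * g k 0 x))) (Ioi 0) := i1.sub i2
    rw [← integral_sub i1 i2, ← integral_add i12 i3]
    refine setIntegral_congr_fun measurableSet_Ioi fun x _ => ?_
    ring
  rw [hcf, hcg] at e1
  linarith

/-- scaling -/
lemma scale {r : ℝ} (hr : 0 < r) :
    Adm (fun x => f (r * x)) (fun x => r * f1 (r * x)) (fun x => r ^ 2 * f2 (r * x)) where
  d1 := fun x hx => by
    have h1 : HasDerivAt (fun x => r * x) r x := by
      simpa using (hasDerivAt_id x).const_mul r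
    have := (h.d1 (r * x) (mul_pos hr hx)).comp x h1
    refine this.congr_deriv ?_
    ring
  d2 := fun x hx => by
    have h1 : HasDerivAt (fun x => r * x) r x := by
      simpa using (hasDerivAt_id x).const_mul r
    have := ((h.d2 (r * x) (mul_pos hr hx)).comp x h1).const_mul r
    refine this.congr_deriv ?_
    ring
  m2 := by
    have hq : Measure.QuasiMeasurePreserving (fun x : ℝ => r * x) (volume.restrict (Ioi 0)) (volume.restrict (Ioi 0)) := by
      refine ⟨(measurable_const_mul r), ?_⟩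
      refine Measure.AbsolutelyContinuous.mk fun s hs hs0 => ?_
      rw [Measure.map_apply (measurable_const_mul r) hs]
      rw [Measure.restrict_apply ((measurable_const_mul r) hs)]
      rw [Measure.restrict_apply hs] at hs0
      have e : (fun x : ℝ => r * x) ⁻¹' s ∩ Ioi 0 = (fun x : ℝ => r * x) ⁻¹' (s ∩ Ioi 0) := by
        ext x
        simp only [mem_inter_iff, mem_preimage, mem_Ioi]
        constructor
        · rintro ⟨h1, h2⟩
          exact ⟨h1, mul_pos hr h2⟩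
        · rintro ⟨h1, h2⟩
          exact ⟨h1, (mul_pos_iff_of_pos_left hr).1 h2⟩
      rw [e, Real.volume_preimage_mul_left hr.ne', hs0, mul_zero]
    exact (h.m2.comp_quasiMeasurePreserving hq).const_mul _
  iA := by
    have h1 : IntegrableOn (fun x => (r * x) * f (r * x) ^ 2) (Ioi 0) := by
      have := (integrableOn_Ioi_comp_mul_left_iff (fun x => x * f x ^ 2) 0 hr).2 (by simpa using h.iA)
      exact this
    have h2 : IntegrableOn (fun x => (1 / r) * ((r * x) * f (r * x) ^ 2)) (Ioi 0) := h1.const_mul (1 / r)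
    refine h2.congr_fun (fun x _ => ?_) measurableSet_Ioi
    field_simp
  iC := by
    have h1 : IntegrableOn (fun x => (r * x) * f2 (r * x) ^ 2) (Ioi 0) := by
      have := (integrableOn_Ioi_comp_mul_left_iff (fun x => x * f2 x ^ 2) 0 hr).2 (by simpa using h.iC)
      exact this
    have h2 : IntegrableOn (fun x => (r ^ 3) * ((r * x) * f2 (r * x) ^ 2)) (Ioi 0) := h1.const_mul (r ^ 3)
    refine h2.congr_fun (fun x _ => ?_) measurableSet_Ioi
    ring

omit h in
lemma int_scale (u : ℝ → ℝ) {r : ℝ} (hr : 0 < r) :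
    ∫ x in Ioi 0, x * u (r * x) ^ 2 = (1 / r ^ 2) * ∫ x in Ioi 0, x * u x ^ 2 := by
  have h1 := integral_comp_mul_left_Ioi (fun x => x * u x ^ 2) 0 hr
  simp only [mul_zero, smul_eq_mul] at h1
  have h2 : (∫ x in Ioi 0, x * u (r * x) ^ 2) = ∫ x in Ioi 0, (1 / r) * (r * x * u (r * x) ^ 2) := by
    refine setIntegral_congr_fun measurableSet_Ioi fun x _ => ?_
    field_simp
  rw [h2, integral_const_mul, h1]
  field_simp

lemma key_scaled {k : ℝ} (hk : k ^ 2 < 1) (h0 : g k 2 0 = 0) {r : ℝ} (hr : 0 < r) :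
    (4 * k ^ 2 - 2) * (∫ x in Ioi 0, x * f1 x ^ 2) ≤
      (1 / r ^ 2) * (∫ x in Ioi 0, x * f x ^ 2) + r ^ 2 * ∫ x in Ioi 0, x * f2 x ^ 2 := by
  have h1 := (h.scale hr).key hk h0
  have eB : (∫ x in Ioi 0, x * (r * f1 (r * x)) ^ 2) = ∫ x in Ioi 0, x * f1 x ^ 2 := by
    have : (∫ x in Ioi 0, x * (r * f1 (r * x)) ^ 2) = ∫ x in Ioi 0, r ^ 2 * (x * f1 (r * x) ^ 2) := by
      refine setIntegral_congr_fun measurableSet_Ioi fun x _ => ?_
      ring
    rw [this, integral_const_mul, int_scale f1 hr]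
    field_simp
  have eC : (∫ x in Ioi 0, x * (r ^ 2 * f2 (r * x)) ^ 2) = r ^ 2 * ∫ x in Ioi 0, x * f2 x ^ 2 := by
    have : (∫ x in Ioi 0, x * (r ^ 2 * f2 (r * x)) ^ 2) = ∫ x in Ioi 0, r ^ 4 * (x * f2 (r * x) ^ 2) := by
      refine setIntegral_congr_fun measurableSet_Ioi fun x _ => ?_
      ring
    rw [this, integral_const_mul, int_scale f2 hr]
    field_simp
  rw [eB, eC, int_scale f hr] at h1
  exact h1

end Adm

/-- optimisation over the scale -/
lemma disc {c A B C : ℝ} (hc : 0 ≤ c) (hA : 0 ≤ A) (hB : 0 ≤ B) (hC : 0 ≤ C)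
    (h : ∀ r : ℝ, 0 < r → c * B ≤ (1 / r ^ 2) * A + r ^ 2 * C) : (c * B) ^ 2 ≤ 4 * (A * C) := by
  have hμ : ∀ μ : ℝ, 0 < μ → c * B ≤ (1 / μ) * A + μ * C := by
    intro μ hμ
    have := h (√μ) (Real.sqrt_pos.2 hμ)
    rwa [Real.sq_sqrt hμ.le] at this
  have hcB : 0 ≤ c * B := mul_nonneg hc hB
  rcases hcB.eq_or_lt with h0 | hpos
  · rw [← h0]
    have := mul_nonneg hA hC
    nlinarith
  · rcases hC.eq_or_lt with hC0 | hCpos
    · -- C = 0 : let μ be large
      exfalso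
      have := hμ ((A + 1) / (c * B)) (by positivity)
      rw [← hC0, mul_zero, add_zero] at this
      have e : 1 / ((A + 1) / (c * B)) * A = c * B * (A / (A + 1)) := by
        field_simp
      rw [e] at this
      have h1 : A / (A + 1) < 1 := by
        rw [div_lt_one (by linarith)]; linarith
      nlinarith
    · have := hμ (c * B / (2 * C)) (by positivity)
      have e : 1 / (c * B / (2 * C)) * A + c * B / (2 * C) * C = 2 * C * A / (c * B) + c * B / 2 := by
        field_simp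
      rw [e] at this
      have h2 : c * B / 2 ≤ 2 * C * A / (c * B) := by linarith
      rw [le_div_iff₀ hpos] at h2
      nlinarith


/-- A real function `f` is admissible if it is twice differentiable on `(0, ∞)` and `x f²` and
`x f''²` are integrable on `(0, ∞)` (only the values of `f` on `(0, ∞)` matter). -/
def Admissible (f : ℝ → ℝ) : Prop :=
  (∀ x, 0 < x → DifferentiableAt ℝ f x) ∧
  (∀ x, 0 < x → DifferentiableAt ℝ (deriv f) x) ∧
  IntegrableOn (fun x => x * f x ^ 2) (Ioi 0) ∧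
  IntegrableOn (fun x => x * deriv (deriv f) x ^ 2) (Ioi 0)

lemma Admissible.adm {f : ℝ → ℝ} (h : Admissible f) : Adm f (deriv f) (deriv (deriv f)) where
  d1 := fun x hx => (h.1 x hx).hasDerivAt
  d2 := fun x hx => (h.2.1 x hx).hasDerivAt
  m2 := (measurable_deriv (deriv f)).aestronglyMeasurable
  iA := h.2.2.1
  iC := h.2.2.2

lemma g_deriv {k : ℝ} (hk : k ^ 2 < 1) (j : ℕ) : deriv (g k j) = g k (j + 1) :=
  funext fun x => (g_hasDeriv hk j x).deriv

lemma g_admissible {k : ℝ} (hk : k ^ 2 < 1) : Admissible (g k 0) := by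
  refine ⟨fun x _ => (g_hasDeriv hk 0 x).differentiableAt, fun x _ => ?_, g_sq_int hk 0, ?_⟩
  · rw [g_deriv hk]
    exact (g_hasDeriv hk 1 x).differentiableAt
  · rw [g_deriv hk, g_deriv hk]
    exact g_sq_int hk 2

lemma g_A_pos {k : ℝ} (hk : k ^ 2 < 1) : 0 < ∫ x in Ioi 0, x * g k 0 x ^ 2 := by
  have h0 := g_zero_zero_pos hk
  have hc := (g_cont hk 0).tendsto 0
  have hev : ∀ᶠ x in 𝓝 (0:ℝ), g k 0 0 / 2 < g k 0 x := hc.eventually_const_lt (by linarith)
  obtain ⟨ε, hε, hball⟩ := Metric.eventually_nhds_iff.1 hev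
  have hsub : Ioo (0:ℝ) ε ⊆ Ioi 0 := fun x hx => hx.1
  have h1 : (∫ x in Ioo 0 ε, x * g k 0 x ^ 2) ≤ ∫ x in Ioi 0, x * g k 0 x ^ 2 := by
    refine setIntegral_mono_set (g_sq_int hk 0) ?_ hsub.eventuallyLE
    refine (ae_restrict_iff' measurableSet_Ioi).2 (Eventually.of_forall fun t ht => ?_)
    have : (0:ℝ) < t := ht
    positivity
  refine lt_of_lt_of_le ?_ h1
  rw [setIntegral_pos_iff_support_of_nonneg_ae]
  · have hs : Ioo (0:ℝ) ε ⊆ (Function.support fun x => x * g k 0 x ^ 2) ∩ Ioo 0 ε := by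
      intro x hx
      refine ⟨?_, hx⟩
      have hd : dist x 0 < ε := by
        rw [Real.dist_eq, sub_zero, abs_of_pos hx.1]; exact hx.2
      have := hball hd
      have hx0 : (0:ℝ) < x := hx.1
      have hg : 0 < g k 0 x := by linarith
      simp only [Function.mem_support]
      positivity
    refine lt_of_lt_of_le ?_ (measure_mono hs)
    simp [hε]
  · refine (ae_restrict_iff' measurableSet_Ioo).2 (Eventually.of_forall fun t ht => ?_)
    have : (0:ℝ) < t := ht.1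
    simp only [Pi.zero_apply]
    positivity
  · exact (g_sq_int hk 0).mono_set hsub

/-- **The exact value of the best constant.**  There is exactly one `k ∈ (0, 1)` with
`2 E(k) = K(k)`, and the best constant in `(∫ x f'²)² ≤ K (∫ x f²) (∫ x f''²)` over all admissible
`f` is `1 / (2 k² - 1)²`.  (The left integral is a genuine one: `x f'²` is integrable.) -/
theorem result :
    ∃ k : ℝ, 0 < k ∧ k < 1 ∧ 2 * ellipticE k = ellipticK k ∧
      (∀ k' : ℝ, 0 < k' → k' < 1 → 2 * ellipticE k' = ellipticK k' → k' = k) ∧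
      (∀ f : ℝ → ℝ, Admissible f → IntegrableOn (fun x => x * deriv f x ^ 2) (Ioi 0)) ∧
      IsLeast {K : ℝ | ∀ f : ℝ → ℝ, Admissible f →
        (∫ x in Ioi 0, x * deriv f x ^ 2) ^ 2 ≤
          K * ((∫ x in Ioi 0, x * f x ^ 2) * ∫ x in Ioi 0, x * deriv (deriv f) x ^ 2)}
        (1 / (2 * k ^ 2 - 1) ^ 2) := by
  obtain ⟨k, hk0, hk1, hroot⟩ := exists_root
  have hk : k ^ 2 < 1 := by nlinarith
  have hhalf : 1 / 2 < k ^ 2 := by
    by_contra hcon
    have := Phi_pos_of_sq_le_half (not_lt.1 hcon)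
    linarith
  have hg2 : g k 2 0 = 0 := by
    rw [g_two_zero hk]; exact hroot
  have hc : 0 < 2 * k ^ 2 - 1 := by linarith
  refine ⟨k, hk0, hk1, ?_, ?_, ?_, ?_, ?_⟩
  · unfold Phi at hroot; linarith
  · intro k' h0' h1' h'
    refine (root_unique hk0 hk1 h0' h1' hroot ?_).symm
    unfold Phi; linarith
  · intro f hf
    exact hf.adm.iB
  · intro f hf
    have ha := hf.adm
    have hA : 0 ≤ ∫ x in Ioi 0, x * f x ^ 2 := Adm.B_nonneg
    have hC : 0 ≤ ∫ x in Ioi 0, x * deriv (deriv f) x ^ 2 := Adm.B_nonneg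
    have hB : 0 ≤ ∫ x in Ioi 0, x * deriv f x ^ 2 := Adm.B_nonneg
    have hd := disc (c := 4 * k ^ 2 - 2) (by linarith) hA hB hC
      (fun r hr => ha.key_scaled hk hg2 hr)
    have e : 1 / (2 * k ^ 2 - 1) ^ 2 * ((∫ x in Ioi 0, x * f x ^ 2) *
        ∫ x in Ioi 0, x * deriv (deriv f) x ^ 2) = ((∫ x in Ioi 0, x * f x ^ 2) *
        ∫ x in Ioi 0, x * deriv (deriv f) x ^ 2) / (2 * k ^ 2 - 1) ^ 2 := by ring
    rw [e, le_div_iff₀ (by positivity)]
    nlinarith
  · intro K' hK'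
    have hadm := g_admissible hk
    have hineq := hK' (g k 0) hadm
    rw [g_deriv hk, g_deriv hk] at hineq
    simp only [zero_add, Nat.reduceAdd] at hineq
    have ha := g_adm hk
    have hApos := g_A_pos hk
    have hC0 : 0 ≤ ∫ x in Ioi 0, x * g k 2 x ^ 2 := Adm.B_nonneg
    have hB0 : 0 ≤ ∫ x in Ioi 0, x * g k 1 x ^ 2 := Adm.B_nonneg
    have hgb : Tendsto (g k 0) (𝓝[>] 0) (𝓝 (g k 0 0)) :=
      ((g_cont hk 0).tendsto 0).mono_left nhdsWithin_le_nhds
    have hcross := ha.cross hk hgb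
    rw [hg2, zero_mul] at hcross
    have heq : (∫ x in Ioi 0, x * g k 0 x ^ 2) + (∫ x in Ioi 0, x * g k 2 x ^ 2)
        - (4 * k ^ 2 - 2) * (∫ x in Ioi 0, x * g k 1 x ^ 2) = 0 := by
      rw [comb_int ha.iA ha.iC ha.iB]
      refine Eq.trans ?_ hcross
      refine setIntegral_congr_fun measurableSet_Ioi fun x _ => ?_
      ring
    have hd := disc (c := 4 * k ^ 2 - 2) (by linarith) hApos.le hB0 hC0
      (fun r hr => ha.key_scaled hk hg2 hr)
    set A := ∫ x in Ioi 0, x * g k 0 x ^ 2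
    set B := ∫ x in Ioi 0, x * g k 1 x ^ 2
    set C := ∫ x in Ioi 0, x * g k 2 x ^ 2
    have hcB : (4 * k ^ 2 - 2) * B = A + C := by linarith
    have hcBpos : 0 < (4 * k ^ 2 - 2) * B := by linarith
    have hAC : 0 < A * C := by nlinarith
    have h1 : 4 * (A * C) ≤ (4 * k ^ 2 - 2) ^ 2 * B ^ 2 := by
      rw [← mul_pow, hcB]
      nlinarith [sq_nonneg (A - C)]
    have h2 : (4 * k ^ 2 - 2) ^ 2 * B ^ 2 ≤ (4 * k ^ 2 - 2) ^ 2 * (K' * (A * C)) := by
      gcongr
    have h3 : 4 * (A * C) ≤ ((4 * k ^ 2 - 2) ^ 2 * K') * (A * C) := by linarith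
    have h4 : 4 ≤ (4 * k ^ 2 - 2) ^ 2 * K' := le_of_mul_le_mul_right h3 hAC
    rw [div_le_iff₀ (by positivity)]
    nlinarith

end Pool.Agent.Results.MP_9d0787_an.ExactConstant
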